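import Pool.Agent.helper79.SX.Spec

/-!
# Project sx (MP_5628fe_nt), module TLS
-/

set_option autoImplicit false

open Finset ArithmeticFunction

namespace Pool.Agent.SX

theorem TLS_allB (n : ℕ) (p : ℕ → Bool) (h : allB n p = true) : ∀ i < n, p i = true := by
  induction n with
  | zero => intro i hi; omega
  | succ n ih =>
    have h1 : and (p n) (allB n p) = true := h
    rw [Bool.and_eq_true] at h1
    intro i hi
    rcases Nat.lt_succ_iff_lt_or_eq.1 hi with h2 | h2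
    · exact ih h1.2 i h2
    · rw [h2]; exact h1.1

theorem TLS_chkT (L : ℕ) (h : chkT L = true) (m : ℕ) (h2 : 2 ≤ m) (h15 : m < 15) :
    (dig L (30 * m) : ℝ) / 2 ^ 40 ≤ 600 / 3 ^ m := by
  have h1 := TLS_allB 15 _ h m h15
  rw [Bool.or_eq_true] at h1
  rcases h1 with h1 | h1
  · have h3 : m < 2 := by
      have h4 : Nat.ble (m + 1) 2 = true := h1
      exact Nat.le_of_ble_eq_true h4
    omega
  · have h3 := Nat.le_of_ble_eq_true h1
    rw [div_le_div_iff₀ (by positivity) (by positivity)]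
    have h4 : ((dig L (30 * m) * 3 ^ m : ℕ) : ℝ) ≤ ((600 * 1099511627776 : ℕ) : ℝ) := by
      exact_mod_cast h3
    push_cast at h4
    norm_num at h4 ⊢
    exact h4

theorem TLS_fac (j : ℕ) (hj : 14 ≤ j) :
    5 * ((31 / 20 : ℝ) ^ j / (j.factorial : ℝ)) ≤ 300 / 3 ^ (j + 1) := by
  induction j, hj using Nat.le_induction with
  | base => norm_num [Nat.factorial]
  | succ j hj ih =>
    have hjR : (14 : ℝ) ≤ j := by exact_mod_cast hj
    have hf : (0 : ℝ) < (j.factorial : ℝ) := by exact_mod_cast Nat.factorial_pos j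
    have e1 : 5 * ((31 / 20 : ℝ) ^ (j + 1) / ((j + 1).factorial : ℝ)) =
        5 * ((31 / 20 : ℝ) ^ j / (j.factorial : ℝ)) * ((31 / 20) / ((j : ℝ) + 1)) := by
      rw [Nat.factorial_succ]
      push_cast
      field_simp
      ring
    have e2 : (300 : ℝ) / 3 ^ (j + 1 + 1) = 300 / 3 ^ (j + 1) * (1 / 3) := by
      rw [pow_succ (3 : ℝ) (j + 1)]
      field_simp
    rw [e1, e2]
    refine mul_le_mul ih ?_ (by positivity) (by positivity)
    rw [div_le_div_iff₀ (by positivity) (by norm_num)]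
    linarith

theorem TLS_exp : Real.exp (279 / 20) ≤ 1203000 := by
  have h1 : Real.exp (279 / 20) ≤ Real.exp 1 ^ 14 := by
    rw [← Real.exp_nat_mul]
    exact Real.exp_le_exp.2 (by norm_num)
  have h2 : Real.exp 1 ^ 14 ≤ (2.7182818286 : ℝ) ^ 14 :=
    pow_le_pow_left₀ (Real.exp_pos 1).le Real.exp_one_lt_d9.le 14
  have h3 : (2.7182818286 : ℝ) ^ 14 ≤ 1203000 := by norm_num
  linarith

/-- The numerical estimate. -/
theorem TLS_val (Q : Finset ℕ) (m K : ℕ) (hm : 15 ≤ m) (hK1 : K + 1 ≤ m) (hK2 : m ≤ K + 2)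
    (hV : 1 / 5 ≤ V Q) (hek0 : ∀ k, 0 ≤ ek Q k)
    (hek : ∀ k, ek Q k ≤ (31 / 20 : ℝ) ^ k / (k.factorial : ℝ)) :
    (∑ k ∈ range (K + 1), ek Q k * (600 / 3 ^ (2 * (m - k))) + ek Q (K + 1)) / V Q ≤
      600 / 3 ^ m := by
  have hVpos : 0 < V Q := by linarith
  have hs : ∑ k ∈ range (K + 1), ek Q k * (600 / 3 ^ (2 * (m - k))) ≤ 600 / 9 ^ m * 1203000 := by
    have h1 : ∀ k ∈ range (K + 1), ek Q k * (600 / 3 ^ (2 * (m - k))) ≤
        600 / 9 ^ m * ((279 / 20 : ℝ) ^ k / (k.factorial : ℝ)) := by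
      intro k hk
      have hkm : k ≤ m := by have := mem_range.1 hk; omega
      have e1 : (3 : ℝ) ^ (2 * (m - k)) = 9 ^ m / 9 ^ k := by
        rw [pow_mul, eq_div_iff (by positivity), show ((3 : ℝ) ^ 2) = 9 by norm_num, ← pow_add,
          Nat.sub_add_cancel hkm]
      have e2 : (279 / 20 : ℝ) ^ k = (31 / 20) ^ k * 9 ^ k := by
        rw [← mul_pow]; norm_num
      have hf : (0 : ℝ) < (k.factorial : ℝ) := by exact_mod_cast Nat.factorial_pos k
      calc ek Q k * (600 / 3 ^ (2 * (m - k)))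
          ≤ (31 / 20 : ℝ) ^ k / (k.factorial : ℝ) * (600 / 3 ^ (2 * (m - k))) :=
            mul_le_mul_of_nonneg_right (hek k) (by positivity)
        _ = 600 / 9 ^ m * ((279 / 20 : ℝ) ^ k / (k.factorial : ℝ)) := by
            rw [e1, e2]
            field_simp
    calc _ ≤ ∑ k ∈ range (K + 1), 600 / 9 ^ m * ((279 / 20 : ℝ) ^ k / (k.factorial : ℝ)) :=
          sum_le_sum h1
      _ = 600 / 9 ^ m * ∑ k ∈ range (K + 1), (279 / 20 : ℝ) ^ k / (k.factorial : ℝ) := by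
          rw [mul_sum]
      _ ≤ 600 / 9 ^ m * Real.exp (279 / 20) :=
          mul_le_mul_of_nonneg_left (Real.sum_le_exp_of_nonneg (by norm_num) _) (by positivity)
      _ ≤ 600 / 9 ^ m * 1203000 := mul_le_mul_of_nonneg_left TLS_exp (by positivity)
  have h3m : (14348907 : ℝ) ≤ 3 ^ m := by
    calc (14348907 : ℝ) = 3 ^ 15 := by norm_num
      _ ≤ 3 ^ m := pow_le_pow_right₀ (by norm_num) hm
  have e9 : (9 : ℝ) ^ m = 3 ^ m * 3 ^ m := by
    rw [← mul_pow]; norm_num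
  have h1 : 5 * (600 / 9 ^ m * 1203000) ≤ 300 / (3 : ℝ) ^ m := by
    have hp : (0 : ℝ) < 3 ^ m := by positivity
    rw [e9]
    have e3 : 5 * (600 / ((3 : ℝ) ^ m * 3 ^ m) * 1203000) = 300 / 3 ^ m * (12030000 / 3 ^ m) := by
      field_simp
      norm_num
    rw [e3]
    have h4 : 12030000 / (3 : ℝ) ^ m ≤ 1 := by
      rw [div_le_one hp]; linarith
    calc 300 / (3 : ℝ) ^ m * (12030000 / 3 ^ m) ≤ 300 / 3 ^ m * 1 :=
          mul_le_mul_of_nonneg_left h4 (by positivity)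
      _ = 300 / 3 ^ m := mul_one _
  have h2 : 5 * ek Q (K + 1) ≤ 300 / (3 : ℝ) ^ m := by
    have h4 := TLS_fac (K + 1) (by omega)
    have h5 : (300 : ℝ) / 3 ^ (K + 1 + 1) ≤ 300 / 3 ^ m := by
      refine div_le_div_of_nonneg_left (by norm_num) (by positivity) ?_
      exact pow_le_pow_right₀ (by norm_num) (by omega)
    have h6 := hek (K + 1)
    linarith
  rw [div_le_iff₀ hVpos]
  have h7 : 600 / (3 : ℝ) ^ m * (1 / 5) ≤ 600 / 3 ^ m * V Q :=
    mul_le_mul_of_nonneg_left hV (by positivity)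
  have h8 : (600 : ℝ) / 3 ^ m = 2 * (300 / 3 ^ m) := by ring
  rw [h8] at h7 ⊢
  linarith

theorem TLS (hMON : MON_stmt) (hSTP : STP_stmt) (hEBD : EBD_stmt) : TLS_stmt := by
  intro u L U hu hT hcL hcU hTail hsig hV m hm
  have h28 : 28 ≤ 30 * u := by omega
  have h28' : 28 ≤ 60 * u := by omega
  have hle : 30 * u ≤ 60 * u := by omega
  obtain ⟨-, hE, -⟩ := hEBD 28 (30 * u) (60 * u) (31 / 20) le_rfl h28 hle hsig
  have hM := hMON (30 * u) h28
  have hM' := hMON (60 * u) h28'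
  have key : ∀ j, 2 ≤ j → Lo (30 * u) (j * (30 * u)) (600 / 3 ^ j) ∧
      Up (30 * u) (j * (30 * u)) (600 / 3 ^ j) := by
    intro j hj
    by_cases h15 : 15 ≤ j
    · exact hTail j h15
    · have e : 30 * j * u = j * (30 * u) := by ring
      have h1 := hT.1 (30 * j) (by omega)
      have h2 := hT.2 (30 * j) (by omega) (by omega)
      rw [e] at h1 h2
      exact ⟨hM.2.1 _ _ _ _ le_rfl (TLS_chkT L hcL j hj (by omega)) h1,
        hM.1 _ _ _ _ le_rfl (TLS_chkT U hcU j hj (by omega)) h2⟩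
  have hB : ∀ K k, K + 1 ≤ m → k ≤ K → m * (60 * u) - k * (60 * u) = 2 * (m - k) * (30 * u) := by
    intro K k hK hk
    rw [← Nat.sub_mul]
    ring
  have hlo : ∀ K, K + 1 ≤ m → m ≤ K + 2 → Odd K → Lo (60 * u) (m * (60 * u)) (600 / 3 ^ m) := by
    intro K hK1 hK2 hodd
    have h1 := (hSTP (30 * u) (60 * u) (m * (60 * u)) K (fun k => 600 / 3 ^ (2 * (m - k))) h28 hle
      (Nat.mul_le_mul_right _ (by omega))).1 hodd (by
        intro k hk
        rw [hB K k hK1 hk]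
        have := key (2 * (m - k)) (by omega)
        exact ⟨fun _ => this.1, fun _ => this.2⟩)
    exact hM'.2.1 _ _ _ _ le_rfl
      (TLS_val _ m K hm hK1 hK2 hV (fun k => (hE k).1) (fun k => (hE k).2)) h1
  have hup : ∀ K, K + 1 ≤ m → m ≤ K + 2 → Even K → Up (60 * u) (m * (60 * u)) (600 / 3 ^ m) := by
    intro K hK1 hK2 heven
    have h1 := (hSTP (30 * u) (60 * u) (m * (60 * u)) K (fun k => 600 / 3 ^ (2 * (m - k))) h28 hle
      (Nat.mul_le_mul_right _ (by omega))).2 heven (by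
        intro k hk
        rw [hB K k hK1 hk]
        have := key (2 * (m - k)) (by omega)
        exact ⟨fun _ => this.2, fun _ => this.1⟩)
    exact hM'.1 _ _ _ _ le_rfl
      (TLS_val _ m K hm hK1 hK2 hV (fun k => (hE k).1) (fun k => (hE k).2)) h1
  rcases Nat.even_or_odd m with hme | hmo
  · obtain ⟨r, hr⟩ := hme
    refine ⟨hlo (m - 1) (by omega) (by omega) ?_, hup (m - 2) (by omega) (by omega) ?_⟩
    · exact ⟨r - 1, by omega⟩
    · exact ⟨r - 1, by omega⟩
  · obtain ⟨r, hr⟩ := hmo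
    refine ⟨hlo (m - 2) (by omega) (by omega) ?_, hup (m - 1) (by omega) (by omega) ?_⟩
    · exact ⟨r - 1, by omega⟩
    · exact ⟨r, by omega⟩

end Pool.Agent.SX
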