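import Pool.Agent.helper79.SX.Spec

/-!
# Project sx (MP_5628fe_nt), module STP
-/

set_option autoImplicit false

open Finset ArithmeticFunction

namespace Pool.Agent.SX

theorem STP_core (hSAD : SAD_stmt) {h h' B k : ℕ} (hh : h ≤ h') (hk : k * h' ≤ B) {X : ℝ}
    {D : Finset ℕ} (hDp : ∀ p ∈ D, p.Prime ∧ 2 ^ h' ≤ p ^ 10)
    (hsz : (2 : ℝ) ^ B * (∏ p ∈ D, (p : ℝ)) ^ 10 ≤ X ^ 10) :
    ∀ T ∈ powersetCard k (Bl h h'), (∀ p ∈ D ∪ T, p.Prime ∧ 2 ^ h ≤ p ^ 10) ∧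
      (2 : ℝ) ^ (B - k * h') * (∏ p ∈ D ∪ T, (p : ℝ)) ^ 10 ≤ X ^ 10 ∧ g (D ∪ T) = g D * g T := by
  intro T hT
  obtain ⟨hTQ, hTk⟩ := mem_powersetCard.1 hT
  have hTm : ∀ p ∈ T, p.Prime ∧ 7 ≤ p ∧ 2 ^ h ≤ p ^ 10 ∧ p ^ 10 < 2 ^ h' := fun p hp =>
    (hSAD.2.1 h h' p).1 (hTQ hp)
  have hdis : Disjoint D T := by
    rw [Finset.disjoint_left]
    intro p hpD hpT
    exact absurd (hDp p hpD).2 (not_le.2 (hTm p hpT).2.2.2)
  refine ⟨fun p hp => ?_, ?_, ?_⟩
  · rcases mem_union.1 hp with hp | hp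
    · exact ⟨(hDp p hp).1, (Nat.pow_le_pow_right (by norm_num) hh).trans (hDp p hp).2⟩
    · exact ⟨(hTm p hp).1, (hTm p hp).2.2.1⟩
  · rw [prod_union hdis, mul_pow]
    have e1 : (∏ p ∈ T, (p : ℝ)) ^ 10 ≤ (2 : ℝ) ^ (k * h') := by
      rw [← prod_pow, mul_comm k h', pow_mul, ← hTk]
      have e2 : ∏ p ∈ T, (2 : ℝ) ^ h' = ((2 : ℝ) ^ h') ^ T.card := by rw [prod_const]
      rw [← e2]
      refine prod_le_prod (fun p _ => by positivity) fun p hp => ?_
      have := (hTm p hp).2.2.2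
      exact_mod_cast this.le
    calc (2 : ℝ) ^ (B - k * h') * ((∏ p ∈ D, (p : ℝ)) ^ 10 * (∏ p ∈ T, (p : ℝ)) ^ 10)
        ≤ (2 : ℝ) ^ (B - k * h') * ((∏ p ∈ D, (p : ℝ)) ^ 10 * (2 : ℝ) ^ (k * h')) := by
          refine mul_le_mul_of_nonneg_left (mul_le_mul_of_nonneg_left e1 ?_) (by positivity)
          exact pow_nonneg (prod_nonneg fun p _ => Nat.cast_nonneg p) 10
      _ = (2 : ℝ) ^ (B - k * h' + k * h') * (∏ p ∈ D, (p : ℝ)) ^ 10 := by
          rw [pow_add]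
          ring
      _ = (2 : ℝ) ^ B * (∏ p ∈ D, (p : ℝ)) ^ 10 := by rw [Nat.sub_add_cancel hk]
      _ ≤ X ^ 10 := hsz
  · unfold g
    exact prod_union hdis

theorem STP_ek (Q : Finset ℕ) (k : ℕ) : ek Q k = ∑ T ∈ powersetCard k Q, g T := rfl

theorem STP_lo (hSAD : SAD_stmt) {h h' B k : ℕ} (hh : h ≤ h') (hk : k * h' ≤ B) {A : Finset ℕ}
    {X : ℝ} (hA : Dens A X) {D : Finset ℕ} (hDp : ∀ p ∈ D, p.Prime ∧ 2 ^ h' ≤ p ^ 10)
    (hsz : (2 : ℝ) ^ B * (∏ p ∈ D, (p : ℝ)) ^ 10 ≤ X ^ 10) {v : ℝ}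
    (hv : Lo h (B - k * h') v) :
    X * g D * V (Pr h) * (ek (Bl h h') k * (1 - v)) ≤
      ∑ T ∈ powersetCard k (Bl h h'), (S A (Pr h) (D ∪ T) : ℝ) := by
  have e : X * g D * V (Pr h) * (ek (Bl h h') k * (1 - v)) =
      ∑ T ∈ powersetCard k (Bl h h'), X * (g D * g T) * V (Pr h) * (1 - v) := by
    rw [STP_ek, sum_mul, mul_sum]
    exact sum_congr rfl fun T _ => by ring
  rw [e]
  refine sum_le_sum fun T hT => ?_
  obtain ⟨h1, h2, h3⟩ := STP_core hSAD hh hk hDp hsz T hT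
  rw [← h3]
  exact hv A X hA (D ∪ T) h1 h2

theorem STP_up (hSAD : SAD_stmt) {h h' B k : ℕ} (hh : h ≤ h') (hk : k * h' ≤ B) {A : Finset ℕ}
    {X : ℝ} (hA : Dens A X) {D : Finset ℕ} (hDp : ∀ p ∈ D, p.Prime ∧ 2 ^ h' ≤ p ^ 10)
    (hsz : (2 : ℝ) ^ B * (∏ p ∈ D, (p : ℝ)) ^ 10 ≤ X ^ 10) {v : ℝ}
    (hv : Up h (B - k * h') v) :
    ∑ T ∈ powersetCard k (Bl h h'), (S A (Pr h) (D ∪ T) : ℝ) ≤
      X * g D * V (Pr h) * (ek (Bl h h') k * (1 + v)) := by
  have e : X * g D * V (Pr h) * (ek (Bl h h') k * (1 + v)) =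
      ∑ T ∈ powersetCard k (Bl h h'), X * (g D * g T) * V (Pr h) * (1 + v) := by
    rw [STP_ek, sum_mul, mul_sum]
    exact sum_congr rfl fun T _ => by ring
  rw [e]
  refine sum_le_sum fun T hT => ?_
  obtain ⟨h1, h2, h3⟩ := STP_core hSAD hh hk hDp hsz T hT
  rw [← h3]
  exact hv A X hA (D ∪ T) h1 h2

theorem STP_pr (hSAD : SAD_stmt) {h h' : ℕ} (hh : h ≤ h') : Pr h' = Pr h ∪ Bl h h' := by
  have hsub : Pr h ⊆ Pr h' := by
    intro p hp
    obtain ⟨h1, h2, h3⟩ := (hSAD.1 h p).1 hp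
    exact (hSAD.1 h' p).2 ⟨h1, h2, h3.trans_le (Nat.pow_le_pow_right (by norm_num) hh)⟩
  unfold Bl
  rw [union_sdiff_of_subset hsub]

theorem STP_bon (hSAD : SAD_stmt) (h h' b : ℕ) :
    (-1 : ℝ) ^ b * (∑ k ∈ range (b + 1), (-1 : ℝ) ^ k * ek (Bl h h') k - V (Bl h h')) ≤
      ek (Bl h h') (b + 1) := by
  have h1 := (Pool.Agent.Lib.BrunHooley.bonferroni (Bl h h') (fun p => (2 / p : ℝ))
    (fun p _ => by positivity) (fun p hp => ?_) b).2
  · exact h1
  · have h7 := ((hSAD.2.1 h h' p).1 hp).2.1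
    have h7' : (7 : ℝ) ≤ p := by exact_mod_cast h7
    rw [div_le_one (by linarith)]
    linarith

theorem STP (hSAD : SAD_stmt) (hBON : BON_stmt) : STP_stmt := by
  intro h h' B K v h28 hh hK
  have hV1 : V (Pr h') = V (Pr h) * V (Bl h h') := hSAD.2.2.1 h h' hh
  obtain ⟨hVp, hVq, -⟩ := hSAD.2.2.2.2.1 h h'
  have hkB : ∀ k ≤ K, k * h' ≤ B := fun k hk => (Nat.mul_le_mul_right h' hk).trans hK
  constructor
  · intro hodd hyp A X hA D hDp hsz
    have hgD : 0 ≤ g D := prod_nonneg fun p _ => by positivity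
    have hW : 0 ≤ X * g D * V (Pr h) := mul_nonneg (mul_nonneg hA.1.le hgD) hVp.le
    have hb := hBON A (Pr h) (Bl h h') D K
    rw [hodd.neg_one_pow, ← STP_pr hSAD hh] at hb
    have hts := STP_bon hSAD h h' K
    rw [hodd.neg_one_pow] at hts
    have hsum : X * g D * V (Pr h) * (∑ k ∈ range (K + 1), (-1 : ℝ) ^ k * ek (Bl h h') k -
        ∑ k ∈ range (K + 1), ek (Bl h h') k * v k) ≤
        ∑ k ∈ range (K + 1), (-1 : ℝ) ^ k *
          ∑ T ∈ powersetCard k (Bl h h'), (S A (Pr h) (D ∪ T) : ℝ) := by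
      rw [← sum_sub_distrib, mul_sum]
      refine sum_le_sum fun k hk => ?_
      have hkK : k ≤ K := Nat.lt_succ_iff.1 (mem_range.1 hk)
      rcases Nat.even_or_odd k with he | ho
      · have := STP_lo hSAD hh (hkB k hkK) hA hDp hsz ((hyp k hkK).1 he)
        rw [he.neg_one_pow, one_mul, one_mul]
        have e2 : ek (Bl h h') k - ek (Bl h h') k * v k = ek (Bl h h') k * (1 - v k) := by ring
        rw [e2]
        exact this
      · have := STP_up hSAD hh (hkB k hkK) hA hDp hsz ((hyp k hkK).2 ho)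
        rw [ho.neg_one_pow]
        have e2 : X * g D * V (Pr h) * (-1 * ek (Bl h h') k - ek (Bl h h') k * v k) =
          -(X * g D * V (Pr h) * (ek (Bl h h') k * (1 + v k))) := by ring
        rw [e2]
        linarith
    have hfin : X * g D * V (Pr h) * (V (Bl h h') - ek (Bl h h') (K + 1) -
        ∑ k ∈ range (K + 1), ek (Bl h h') k * v k) ≤
        X * g D * V (Pr h) * (∑ k ∈ range (K + 1), (-1 : ℝ) ^ k * ek (Bl h h') k -
        ∑ k ∈ range (K + 1), ek (Bl h h') k * v k) :=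
      mul_le_mul_of_nonneg_left (by linarith) hW
    have e3 : X * g D * V (Pr h') * (1 - (∑ k ∈ range (K + 1), ek (Bl h h') k * v k +
        ek (Bl h h') (K + 1)) / V (Bl h h')) =
        X * g D * V (Pr h) * (V (Bl h h') - ek (Bl h h') (K + 1) -
        ∑ k ∈ range (K + 1), ek (Bl h h') k * v k) := by
      rw [hV1]
      field_simp
      ring
    rw [e3]
    linarith
  · intro heven hyp A X hA D hDp hsz
    have hgD : 0 ≤ g D := prod_nonneg fun p _ => by positivity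
    have hW : 0 ≤ X * g D * V (Pr h) := mul_nonneg (mul_nonneg hA.1.le hgD) hVp.le
    have hb := hBON A (Pr h) (Bl h h') D K
    rw [heven.neg_one_pow, ← STP_pr hSAD hh] at hb
    have hts := STP_bon hSAD h h' K
    rw [heven.neg_one_pow] at hts
    have hsum : ∑ k ∈ range (K + 1), (-1 : ℝ) ^ k *
          ∑ T ∈ powersetCard k (Bl h h'), (S A (Pr h) (D ∪ T) : ℝ) ≤
        X * g D * V (Pr h) * (∑ k ∈ range (K + 1), (-1 : ℝ) ^ k * ek (Bl h h') k +
        ∑ k ∈ range (K + 1), ek (Bl h h') k * v k) := by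
      rw [← sum_add_distrib, mul_sum]
      refine sum_le_sum fun k hk => ?_
      have hkK : k ≤ K := Nat.lt_succ_iff.1 (mem_range.1 hk)
      rcases Nat.even_or_odd k with he | ho
      · have := STP_up hSAD hh (hkB k hkK) hA hDp hsz ((hyp k hkK).1 he)
        rw [he.neg_one_pow, one_mul, one_mul]
        have e2 : ek (Bl h h') k + ek (Bl h h') k * v k = ek (Bl h h') k * (1 + v k) := by ring
        rw [e2]
        exact this
      · have := STP_lo hSAD hh (hkB k hkK) hA hDp hsz ((hyp k hkK).2 ho)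
        rw [ho.neg_one_pow]
        have e2 : X * g D * V (Pr h) * (-1 * ek (Bl h h') k + ek (Bl h h') k * v k) =
          -(X * g D * V (Pr h) * (ek (Bl h h') k * (1 - v k))) := by ring
        rw [e2]
        linarith
    have hfin : X * g D * V (Pr h) * (∑ k ∈ range (K + 1), (-1 : ℝ) ^ k * ek (Bl h h') k +
        ∑ k ∈ range (K + 1), ek (Bl h h') k * v k) ≤
        X * g D * V (Pr h) * (V (Bl h h') + ek (Bl h h') (K + 1) +
        ∑ k ∈ range (K + 1), ek (Bl h h') k * v k) :=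
      mul_le_mul_of_nonneg_left (by linarith) hW
    have e3 : X * g D * V (Pr h') * (1 + (∑ k ∈ range (K + 1), ek (Bl h h') k * v k +
        ek (Bl h h') (K + 1)) / V (Bl h h')) =
        X * g D * V (Pr h) * (V (Bl h h') + ek (Bl h h') (K + 1) +
        ∑ k ∈ range (K + 1), ek (Bl h h') k * v k) := by
      rw [hV1]
      field_simp
      ring
    rw [e3]
    linarith

end Pool.Agent.SX
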